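import Pool.Agent.W682.BQ.Stm

/-! Project BQ, part QTB: positivity for the regularised functional. -/

set_option autoImplicit false

namespace Pool.Agent.W658.BQ.Qtb

open MeasureTheory Set Filter Topology
open Pool.Agent.W488.IW Pool.Agent.W488.IX Pool.Agent.W682.BQ
open Pool.Agent.W360.BQ (Cf Vg QCF S_FLOWF S_NULLF)

lemma continuous_ek (k : Idx) : Continuous (ek k) := by
  unfold ek
  fun_prop

lemma continuous_tp (Λ : Finset Idx) (w c : Idx → ℂ) : Continuous (tp Λ w c) := by
  unfold tp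
  exact continuous_finsetSum _ fun k _ => continuous_const.mul (continuous_ek k)

lemma continuous_gd (Λ : Finset Idx) (c : Idx → ℂ) : Continuous (gd Λ c) :=
  (continuous_tp Λ ka c).prodMk (continuous_tp Λ kb c)

lemma continuous_pp (Λ : Finset Idx) (c : Idx → ℂ) : Continuous (pp Λ c) := continuous_tp _ _ _
lemma continuous_qq (Λ : Finset Idx) (c : Idx → ℂ) : Continuous (qq Λ c) := continuous_tp _ _ _
lemma continuous_rr (Λ : Finset Idx) (c : Idx → ℂ) : Continuous (rr Λ c) := continuous_tp _ _ _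

lemma continuous_DIV {w : ℂ × ℂ → ℝ} (hw : ContDiff ℝ 2 w) {X : Type*} [TopologicalSpace X]
    {F : X → ℂ × ℂ} {p q r φ : X → ℂ} (hF : Continuous F) (hp : Continuous p) (hq : Continuous q)
    (hr : Continuous r) (hφ : Continuous φ) :
    Continuous (fun x => DIV w (F x) (p x) (q x) (r x) (φ x)) := by
  have h1 : ContDiff ℝ 1 (fderiv ℝ w) := hw.fderiv_right (by norm_num)
  have h2 : Continuous (fderiv ℝ (fderiv ℝ w)) := h1.continuous_fderiv (by simp)
  have h3 : Continuous (fun x => fderiv ℝ (fderiv ℝ w) (F x)) := h2.comp hF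
  unfold DIV
  refine Continuous.add ?_ ?_
  · exact (h3.clm_apply ((hp.add hq).prodMk (hq.add hr))).clm_apply
      ((hφ.div_const 2).prodMk (hφ.div_const 2))
  · exact (h3.clm_apply ((continuous_const.mul (hp.sub hq)).prodMk
      (continuous_const.mul (hq.sub hr)))).clm_apply
      ((((continuous_const.mul hφ).div_const 2).neg).prodMk
        ((continuous_const.mul hφ).div_const 2))

lemma continuous_OMa {e : ℂ × ℂ → ℝ} (he : ContDiff ℝ 1 e) {X : Type*} [TopologicalSpace X]
    {F : X → ℂ × ℂ} {p q r : X → ℂ} (hF : Continuous F) (hp : Continuous p) (hq : Continuous q)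
    (hr : Continuous r) :
    Continuous (fun x => OMa e (F x) (p x) (q x) (r x)) := by
  have h2 : Continuous (fderiv ℝ e) := he.continuous_fderiv (by simp)
  have h3 : Continuous (fun x => fderiv ℝ e (F x)) := h2.comp hF
  have h4 : Continuous (fun x => e (F x)) := he.continuous.comp hF
  have h5 : Continuous (fun x => (starRingEnd ℂ) (F x).1) :=
    Complex.continuous_conj.comp (continuous_fst.comp hF)
  unfold OMa
  refine ((Continuous.mul ?_ ?_).sub (Continuous.mul ?_ ?_)).add (Continuous.mul ?_ ?_)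
  · exact h3.clm_apply ((hp.add hq).prodMk (hq.add hr))
  · exact Complex.continuous_im.comp (h5.mul (continuous_const.mul (hp.sub hq)))
  · exact h3.clm_apply ((continuous_const.mul (hp.sub hq)).prodMk
      (continuous_const.mul (hq.sub hr)))
  · exact Complex.continuous_im.comp (h5.mul (hp.add hq))
  · exact continuous_const.mul h4
  · exact (hp.norm.pow 2).sub (hq.norm.pow 2)

lemma continuous_OMb {e : ℂ × ℂ → ℝ} (he : ContDiff ℝ 1 e) {X : Type*} [TopologicalSpace X]
    {F : X → ℂ × ℂ} {p q r : X → ℂ} (hF : Continuous F) (hp : Continuous p) (hq : Continuous q)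
    (hr : Continuous r) :
    Continuous (fun x => OMb e (F x) (p x) (q x) (r x)) := by
  have h2 : Continuous (fderiv ℝ e) := he.continuous_fderiv (by simp)
  have h3 : Continuous (fun x => fderiv ℝ e (F x)) := h2.comp hF
  have h4 : Continuous (fun x => e (F x)) := he.continuous.comp hF
  have h5 : Continuous (fun x => (starRingEnd ℂ) (F x).2) :=
    Complex.continuous_conj.comp (continuous_snd.comp hF)
  unfold OMb
  refine ((Continuous.mul ?_ ?_).sub (Continuous.mul ?_ ?_)).add (Continuous.mul ?_ ?_)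
  · exact h3.clm_apply ((hp.add hq).prodMk (hq.add hr))
  · exact Complex.continuous_im.comp (h5.mul (continuous_const.mul (hq.sub hr)))
  · exact h3.clm_apply ((continuous_const.mul (hp.sub hq)).prodMk
      (continuous_const.mul (hq.sub hr)))
  · exact Complex.continuous_im.comp (h5.mul (hq.add hr))
  · exact continuous_const.mul h4
  · exact (hq.norm.pow 2).sub (hr.norm.pow 2)

lemma int3 {f g h : V → ℝ} {S : Set V} (hf : IntegrableOn f S) (hg : IntegrableOn g S)
    (hh : IntegrableOn h S) :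
    ∫ x in S, (2 * f x + g x + h x) = 2 * (∫ x in S, f x) + (∫ x in S, g x) + ∫ x in S, h x := by
  have h2 : IntegrableOn (fun x => 2 * f x) S := hf.const_mul 2
  have h3 : IntegrableOn (fun x => 2 * f x + g x) S := h2.add hg
  rw [integral_add h3 hh, integral_add h2 hg, integral_const_mul]

lemma lip_cont {E : Type*} [NormedAddCommGroup E] {s : ℂ × ℂ → E}
    (h : ∃ L : ℝ, ∀ F F', ‖s F - s F'‖ ≤ L * ‖F - F'‖) : Continuous s := by
  obtain ⟨L, hL⟩ := h
  refine (LipschitzWith.of_dist_le_mul (K := Real.toNNReal L) ?_).continuous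
  intro F F'
  rw [dist_eq_norm, dist_eq_norm]
  refine (hL F F').trans ?_
  exact mul_le_mul_of_nonneg_right (Real.le_coe_toNNReal L) (norm_nonneg _)

lemma continuous_Vg {s : ℂ × ℂ → ℂ} {m : ℂ × ℂ → ℝ} (hs : Continuous s) (hm : Continuous m)
    {X : Type*} [TopologicalSpace X] {F : X → ℂ × ℂ} {p q r : X → ℂ} (hF : Continuous F)
    (hp : Continuous p) (hq : Continuous q) (hr : Continuous r) :
    Continuous (fun x => Vg s m (F x) (p x) (q x) (r x)) := by
  unfold Vg
  have h1 : Continuous (fun x => s (F x)) := hs.comp hF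
  have h2 : Continuous (fun x => ((m (F x) : ℝ) : ℂ)) :=
    Complex.continuous_ofReal.comp (hm.comp hF)
  exact ((h2.mul hq).add (h1.mul hp)).add ((Complex.continuous_conj.comp h1).mul hr)

theorem main (hP : S_PCB) (hR : S_REGB) (hC : S_COEFB) (hcut : S_CUT) (hN : S_NULLF)
    (hF : S_FLOWF) : S_QTB := by
  intro κ hκ ϑ hϑ ε0 hε0
  obtain ⟨δ, hδ, ε1, hε1, H⟩ := hP κ hκ ϑ hϑ
  obtain ⟨ε, hε, hlt⟩ : ∃ ε : ℝ, 0 < ε ∧ ε < min (min ε0 ε1) 1 :=
    exists_between (by positivity)
  have hlt0 : ε < ε0 := lt_of_lt_of_le hlt ((min_le_left _ _).trans (min_le_left _ _))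
  have hlt1 : ε < ε1 := lt_of_lt_of_le hlt ((min_le_left _ _).trans (min_le_right _ _))
  have hlt8 : ε < 1 := lt_of_lt_of_le hlt (min_le_right _ _)
  obtain ⟨l, hl⟩ := hcut ε hε
  obtain ⟨hw, hK, he, hg⟩ := hR κ l ε hκ hl ε ϑ hε hlt8
  have hCf := hC κ l ε hκ hl ε δ hε hlt8 hδ
  have hsc : Continuous (mB l ε) := lip_cont hCf.sl
  have hmc : Continuous (nB κ l ε δ) := by
    apply lip_cont
    obtain ⟨L, hL⟩ := hCf.ml
    exact ⟨L, fun F F' => by rw [Real.norm_eq_abs]; exact hL F F'⟩
  refine ⟨ε, hε, hlt0, ?_⟩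
  intro F0
  refine hF (mB l ε) (nB κ l ε δ) (2 + 4 * (δ * ε / (1 + ε))) hCf (wB κ ε ϑ) hw hK F0 ?_
  intro N c
  have hn := hN (eB κ l ε ϑ) he F0 (box N) c
  have hn' := hN (gB κ l ε ϑ) hg F0 (box N) c
  have cg : Continuous (fun x => F0 + gd (box N) c x) :=
    continuous_const.add (continuous_gd (box N) c)
  have cp := continuous_pp (box N) c
  have cq := continuous_qq (box N) c
  have cr := continuous_rr (box N) c
  have cV := continuous_Vg hsc hmc cg cp cq cr
  have i1 : IntegrableOn (fun x => DIV (wB κ ε ϑ) (F0 + gd (box N) c x) (pp (box N) c x)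
      (qq (box N) c x) (rr (box N) c x) (Vg (mB l ε) (nB κ l ε δ) (F0 + gd (box N) c x)
        (pp (box N) c x) (qq (box N) c x) (rr (box N) c x))) (Icc (0 : V) 1) :=
    (continuous_DIV hw cg cp cq cr cV).integrableOn_Icc
  have i2 : IntegrableOn (fun x => OMa (eB κ l ε ϑ) (F0 + gd (box N) c x) (pp (box N) c x)
      (qq (box N) c x) (rr (box N) c x)) (Icc (0 : V) 1) :=
    (continuous_OMa he cg cp cq cr).integrableOn_Icc
  have i3 : IntegrableOn (fun x => OMb (gB κ l ε ϑ) (F0 + gd (box N) c x) (pp (box N) c x)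
      (qq (box N) c x) (rr (box N) c x)) (Icc (0 : V) 1) :=
    (continuous_OMb hg cg cp cq cr).integrableOn_Icc
  have key : 0 ≤ ∫ x in Icc (0 : V) 1, (2 * DIV (wB κ ε ϑ) (F0 + gd (box N) c x)
      (pp (box N) c x) (qq (box N) c x) (rr (box N) c x)
      (Vg (mB l ε) (nB κ l ε δ) (F0 + gd (box N) c x)
        (pp (box N) c x) (qq (box N) c x) (rr (box N) c x))
      + OMa (eB κ l ε ϑ) (F0 + gd (box N) c x) (pp (box N) c x) (qq (box N) c x) (rr (box N) c x)
      + OMb (gB κ l ε ϑ) (F0 + gd (box N) c x) (pp (box N) c x) (qq (box N) c x)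
        (rr (box N) c x)) := by
    refine integral_nonneg ?_
    intro x
    exact H ε hε hlt1 l hl (F0 + gd (box N) c x) (pp (box N) c x) (qq (box N) c x)
      (rr (box N) c x)
  rw [int3 i1 i2 i3, hn.1, hn'.2] at key
  linarith

end Pool.Agent.W658.BQ.Qtb
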